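import Mathlib

set_option autoImplicit false

/-!
# MP_1678b7_co, Q1: a flag complex whose face vector has no real-parameter representation

The clique complex of the following graph on seven vertices: `K₅` on `{0,1,2,3,4}`, and the vertices
`5 ~ 0, 1, 6` and `6 ~ 2, 3, 5`. Its face vector is `(1, 7, 15, 12, 5, 1)`.
-/

open Finset

namespace Pool.Agent.Results.MP_1678b7_co.NoRealParameters

/-- A finite simplicial complex on vertices taken from `V`; it contains the empty face. -/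
structure Cpx (V : Type) where
  faces : Finset (Finset V)
  empty_mem : ∅ ∈ faces
  down : ∀ F ∈ faces, ∀ G ⊆ F, G ∈ faces

/-- `Δ` is a flag complex: every set of vertices of `Δ` that are pairwise joined by edges of `Δ` is
a face. -/
def IsFlag {V : Type} [DecidableEq V] (Δ : Cpx V) : Prop :=
  ∀ F : Finset V, (∀ v ∈ F, {v} ∈ Δ.faces) → (∀ u ∈ F, ∀ v ∈ F, u ≠ v → {u, v} ∈ Δ.faces) →
    F ∈ Δ.faces

/-- The number of faces with exactly `j` vertices. -/
def c {V : Type} (Δ : Cpx V) (j : ℕ) : ℕ := (Δ.faces.filter fun F => F.card = j).card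

/-- `Δ` has dimension `d - 1`: the largest faces have `d` vertices. -/
def HasDim {V : Type} (Δ : Cpx V) (d : ℕ) : Prop :=
  (∃ F ∈ Δ.faces, F.card = d) ∧ ∀ F ∈ Δ.faces, F.card ≤ d

/-- Nonnegative reals `a j k = a_j^k`, `1 ≤ j ≤ k ≤ d`, satisfying conditions 1, 2 and 3. In condition 1
the sum runs over the sets `S = {i_1 < ... < i_j}` contained in `{1, ..., d}`, and `S.sup id = i_j` is the largest
element of `S`. -/
def Represents (d : ℕ) (c : ℕ → ℕ) (a : ℕ → ℕ → ℝ) : Prop :=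
  (∀ j k, 1 ≤ j → j ≤ k → k ≤ d → 0 ≤ a j k) ∧
  (∀ j, 1 ≤ j → j ≤ d →
    (c j : ℝ) = ∑ S ∈ powersetCard j (Icc 1 d), ∏ i ∈ S, a i (S.sup id)) ∧
  (∀ i j k, 1 ≤ i → i < j → j ≤ k → k ≤ d → a j k ≤ a i k) ∧
  (∀ j i k, 1 ≤ j → j ≤ i → i < k → k ≤ d → a j k ≤ a j i)

/-! ### The complex -/

/-- the adjacency relation -/
def adj (u v : Fin 7) : Bool :=
  (u.val < 5 && v.val < 5) || (u.val == 5 && (v.val == 0 || v.val == 1 || v.val == 6)) ||
    (v.val == 5 && (u.val == 0 || u.val == 1 || u.val == 6)) ||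
    (u.val == 6 && (v.val == 2 || v.val == 3)) || (v.val == 6 && (u.val == 2 || u.val == 3))

/-- the clique complex -/
def Δ₀ : Cpx (Fin 7) where
  faces := (univ : Finset (Fin 7)).powerset.filter fun F => ∀ u ∈ F, ∀ v ∈ F, u ≠ v → adj u v = true
  empty_mem := by decide
  down := by
    intro F hF G hG
    rw [mem_filter, mem_powerset] at hF ⊢
    exact ⟨subset_univ _, fun u hu v hv => hF.2 u (hG hu) v (hG hv)⟩

theorem flag₀ : IsFlag Δ₀ := by
  intro F _ h2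
  unfold Δ₀
  rw [mem_filter, mem_powerset]
  refine ⟨subset_univ _, fun u hu v hv huv => ?_⟩
  have h := h2 u hu v hv huv
  unfold Δ₀ at h
  rw [mem_filter] at h
  exact h.2 u (by simp) v (by simp) huv

theorem dim₀ : HasDim Δ₀ 5 := by
  constructor
  · exact ⟨{0, 1, 2, 3, 4}, by decide, by decide⟩
  · decide +kernel

theorem c₀ : c Δ₀ 1 = 7 ∧ c Δ₀ 2 = 15 ∧ c Δ₀ 3 = 12 ∧ c Δ₀ 4 = 5 ∧ c Δ₀ 5 = 1 := by
  unfold c
  decide +kernel

/-! ### No representation -/

/-- five positive reals with product one and sum at most five are all one -/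
theorem amgm (r : Fin 5 → ℝ) (hpos : ∀ i, 0 < r i) (hprod : ∏ i, r i = 1) (hsum : ∑ i, r i ≤ 5)
    (i : Fin 5) : r i = 1 := by
  by_contra hne
  have h1 : ∑ j, Real.log (r j) = 0 := by
    rw [← Real.log_prod (fun j _ => (hpos j).ne'), hprod, Real.log_one]
  have h2 : ∑ j, Real.log (r j) < ∑ j, (r j - 1) :=
    Finset.sum_lt_sum (fun j _ => Real.log_le_sub_one_of_pos (hpos j))
      ⟨i, mem_univ i, Real.log_lt_sub_one_of_pos (hpos i) hne⟩
  rw [h1, Finset.sum_sub_distrib] at h2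
  simp only [sum_const, card_univ, Fintype.card_fin, nsmul_eq_mul] at h2
  norm_num at h2
  linarith

theorem arith (p1 p2 p3 p4 p5 q1 q2 q3 q4 t1 t2 t3 y z x : ℝ)
    (h5 : p1 * p2 * p3 * p4 * p5 = 1)
    (h4 : q1 * q2 * q3 * q4 + (p1 * p2 * p3 + p1 * p2 * p4 + p1 * p3 * p4 + p2 * p3 * p4) * p5 = 5)
    (h3 : t1 * t2 * t3 + (q1 * q2 + q1 * q3 + q2 * q3) * q4 +
      (p1 * p2 + p1 * p3 + p1 * p4 + p2 * p3 + p2 * p4 + p3 * p4) * p5 = 12)
    (h2 : y * z + (t1 + t2) * t3 + (q1 + q2 + q3) * q4 + (p1 + p2 + p3 + p4) * p5 = 15)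
    (h1 : x + z + t3 + q4 + p5 = 7)
    (n1 : 0 ≤ p1) (n2 : 0 ≤ p2) (n3 : 0 ≤ p3) (n4 : 0 ≤ p4) (n5 : 0 ≤ p5)
    (m1 : p1 ≤ q1) (m2 : p2 ≤ q2) (m3 : p3 ≤ q3) (m4 : p4 ≤ q4)
    (k1 : q1 ≤ t1) (k2 : q2 ≤ t2) (k3 : q3 ≤ t3) (l1 : t1 ≤ y) (l2 : t2 ≤ z) (l3 : y ≤ x)
    (s12 : t2 ≤ t1) (s23 : t3 ≤ t2) : False := by
  -- the top layer is constant
  have hp : p1 = 1 ∧ p2 = 1 ∧ p3 = 1 ∧ p4 = 1 ∧ p5 = 1 := by
    have g1 : 0 < p1 := lt_of_le_of_ne n1 (fun h => by rw [← h] at h5; norm_num at h5)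
    have g2 : 0 < p2 := lt_of_le_of_ne n2 (fun h => by rw [← h] at h5; norm_num at h5)
    have g3 : 0 < p3 := lt_of_le_of_ne n3 (fun h => by rw [← h] at h5; norm_num at h5)
    have g4 : 0 < p4 := lt_of_le_of_ne n4 (fun h => by rw [← h] at h5; norm_num at h5)
    have g5 : 0 < p5 := lt_of_le_of_ne n5 (fun h => by rw [← h] at h5; norm_num at h5)
    have i1 : 0 ≤ q1 := n1.trans m1
    have i2 : 0 ≤ q2 := n2.trans m2
    have i3 : 0 ≤ q3 := n3.trans m3
    have i4 : 0 ≤ q4 := n4.trans m4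
    have e1 : p1 * p2 * p3 * p4 ≤ q1 * q2 * q3 * q4 := by gcongr
    have key := amgm ![p2 * p3 * p4 * p5, p1 * p3 * p4 * p5, p1 * p2 * p4 * p5,
      p1 * p2 * p3 * p5, p1 * p2 * p3 * p4] (by
        intro i
        fin_cases i <;> simp <;> positivity) (by
        rw [Fin.prod_univ_five]
        simp only [Matrix.cons_val_zero, Matrix.cons_val_one, Matrix.cons_val]
        calc p2 * p3 * p4 * p5 * (p1 * p3 * p4 * p5) * (p1 * p2 * p4 * p5) *
            (p1 * p2 * p3 * p5) * (p1 * p2 * p3 * p4) = (p1 * p2 * p3 * p4 * p5) ^ 4 := by ring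
          _ = 1 := by rw [h5]; norm_num) (by
        rw [Fin.sum_univ_five]
        simp only [Matrix.cons_val_zero, Matrix.cons_val_one, Matrix.cons_val]
        nlinarith)
    have k1 := key 0
    have k2 := key 1
    have k3 := key 2
    have k4 := key 3
    have k5 := key 4
    simp only [Matrix.cons_val_zero, Matrix.cons_val_one, Matrix.cons_val] at k1 k2 k3 k4 k5
    refine ⟨?_, ?_, ?_, ?_, ?_⟩
    · calc p1 = p1 * (p2 * p3 * p4 * p5) := by rw [k1, mul_one]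
        _ = p1 * p2 * p3 * p4 * p5 := by ring
        _ = 1 := h5
    · calc p2 = p2 * (p1 * p3 * p4 * p5) := by rw [k2, mul_one]
        _ = p1 * p2 * p3 * p4 * p5 := by ring
        _ = 1 := h5
    · calc p3 = p3 * (p1 * p2 * p4 * p5) := by rw [k3, mul_one]
        _ = p1 * p2 * p3 * p4 * p5 := by ring
        _ = 1 := h5
    · calc p4 = p4 * (p1 * p2 * p3 * p5) := by rw [k4, mul_one]
        _ = p1 * p2 * p3 * p4 * p5 := by ring
        _ = 1 := h5
    · calc p5 = p1 * p2 * p3 * p4 * p5 := by rw [k5, one_mul]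
        _ = 1 := h5
  obtain ⟨rfl, rfl, rfl, rfl, rfl⟩ := hp
  -- so is the layer below
  have hq : q1 * q2 * q3 * q4 = 1 := by linarith
  have hq12 : 1 ≤ q1 * q2 := by nlinarith
  have hq34 : 1 ≤ q3 * q4 := by nlinarith
  have hq' : (q1 * q2) * (q3 * q4) = 1 := by linarith
  have e12 : q1 * q2 = 1 := by nlinarith
  have e34 : q3 * q4 = 1 := by nlinarith
  obtain rfl : q1 = 1 := by nlinarith
  obtain rfl : q2 = 1 := by linarith
  obtain rfl : q3 = 1 := by nlinarith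
  obtain rfl : q4 = 1 := by linarith
  -- three remaining equations
  have a3 : t1 * t2 * t3 = 3 := by linarith
  have a2 : y * z + (t1 + t2) * t3 = 8 := by linarith
  have a1 : x + z + t3 = 5 := by linarith
  have b1 : y * z ≤ y * (5 - t3 - y) := by
    apply mul_le_mul_of_nonneg_left _ (by linarith)
    linarith
  have b2 : t1 * t3 + (y - t1) * t3 ≥ t1 * t3 + (y - t1) := by nlinarith
  have w1 : t1 * (t2 * t3) = 3 := by linarith
  have b3 : 8 ≤ 4 * y - y ^ 2 + t1 + t2 * t3 := by nlinarith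
  have w2 : 1 ≤ t2 * t3 := by nlinarith
  rcases lt_or_ge t1 3 with h | h
  · have u1 : 1 < t1 := by
      by_contra hc
      push Not at hc
      have e : t1 = 1 := by linarith
      have e2 : t2 = 1 := by linarith
      have e3 : t3 = 1 := by linarith
      rw [e, e2, e3] at a3
      norm_num at a3
    have c1 : t1 * (t1 + t2 * t3) < t1 * 4 := by nlinarith [mul_pos (sub_pos.2 u1) (sub_pos.2 h)]
    have c2 : t1 + t2 * t3 < 4 := lt_of_mul_lt_mul_left c1 (by linarith)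
    nlinarith [sq_nonneg (y - 2)]
  · have c1 : t2 * t3 ≤ 1 := by nlinarith
    nlinarith [sq_nonneg (2 * y - 5)]

/-- the sets in condition 1 -/
theorem ps1 : powersetCard 1 (Icc 1 5) = ({{1}, {2}, {3}, {4}, {5}} : Finset (Finset ℕ)) := by
  decide

theorem ps2 : powersetCard 2 (Icc 1 5) = ({{1, 2}, {1, 3}, {1, 4}, {1, 5}, {2, 3}, {2, 4}, {2, 5},
    {3, 4}, {3, 5}, {4, 5}} : Finset (Finset ℕ)) := by
  decide

theorem ps3 : powersetCard 3 (Icc 1 5) = ({{1, 2, 3}, {1, 2, 4}, {1, 2, 5}, {1, 3, 4}, {1, 3, 5},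
    {1, 4, 5}, {2, 3, 4}, {2, 3, 5}, {2, 4, 5}, {3, 4, 5}} : Finset (Finset ℕ)) := by
  decide

theorem ps4 : powersetCard 4 (Icc 1 5) = ({{1, 2, 3, 4}, {1, 2, 3, 5}, {1, 2, 4, 5}, {1, 3, 4, 5},
    {2, 3, 4, 5}} : Finset (Finset ℕ)) := by
  decide

theorem ps5 : powersetCard 5 (Icc 1 5) = ({{1, 2, 3, 4, 5}} : Finset (Finset ℕ)) := by
  decide

theorem no_rep (a : ℕ → ℕ → ℝ) : ¬ Represents 5 (c Δ₀) a := by
  rintro ⟨hn, hc, h2, h3⟩
  obtain ⟨e1, e2, e3, e4, e5⟩ := c₀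
  have f1 := hc 1 le_rfl (by norm_num)
  have f2 := hc 2 (by norm_num) (by norm_num)
  have f3 := hc 3 (by norm_num) (by norm_num)
  have f4 := hc 4 (by norm_num) (by norm_num)
  have f5 := hc 5 (by norm_num) (by norm_num)
  rw [e1, ps1] at f1
  rw [e2, ps2] at f2
  rw [e3, ps3] at f3
  rw [e4, ps4] at f4
  rw [e5, ps5] at f5
  simp (decide := true) [Finset.sum_insert, Finset.prod_insert, Finset.sup_insert] at f1 f2 f3 f4 f5
  refine arith (a 1 5) (a 2 5) (a 3 5) (a 4 5) (a 5 5) (a 1 4) (a 2 4) (a 3 4) (a 4 4)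
    (a 1 3) (a 2 3) (a 3 3) (a 1 2) (a 2 2) (a 1 1) ?_ ?_ ?_ ?_ ?_
    (hn 1 5 (by norm_num) (by norm_num) (by norm_num))
    (hn 2 5 (by norm_num) (by norm_num) (by norm_num))
    (hn 3 5 (by norm_num) (by norm_num) (by norm_num))
    (hn 4 5 (by norm_num) (by norm_num) (by norm_num))
    (hn 5 5 (by norm_num) (by norm_num) (by norm_num))
    (h3 1 4 5 (by norm_num) (by norm_num) (by norm_num) (by norm_num))
    (h3 2 4 5 (by norm_num) (by norm_num) (by norm_num) (by norm_num))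
    (h3 3 4 5 (by norm_num) (by norm_num) (by norm_num) (by norm_num))
    (h3 4 4 5 (by norm_num) (by norm_num) (by norm_num) (by norm_num))
    (h3 1 3 4 (by norm_num) (by norm_num) (by norm_num) (by norm_num))
    (h3 2 3 4 (by norm_num) (by norm_num) (by norm_num) (by norm_num))
    (h3 3 3 4 (by norm_num) (by norm_num) (by norm_num) (by norm_num))
    (h3 1 2 3 (by norm_num) (by norm_num) (by norm_num) (by norm_num))
    (h3 2 2 3 (by norm_num) (by norm_num) (by norm_num) (by norm_num))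
    (h3 1 1 2 (by norm_num) (by norm_num) (by norm_num) (by norm_num))
    (h2 1 2 3 (by norm_num) (by norm_num) (by norm_num) (by norm_num))
    (h2 2 3 3 (by norm_num) (by norm_num) (by norm_num) (by norm_num))
  · linear_combination -f5
  · linear_combination -f4
  · linear_combination -f3
  · linear_combination -f2
  · linear_combination -f1

/-- **Q1 is false.** The flag complex `Δ` (the clique complex of `K₅` with two more vertices
`5 ~ 0, 1, 6`, `6 ~ 2, 3, 5`) has dimension `4 = 5 - 1` and face vector `(1, 7, 15, 12, 5, 1)`, and no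
family of nonnegative reals satisfies conditions 1, 2 and 3 for `d = 5` and this vector. -/
theorem result :
    (∃ Δ : Cpx (Fin 7), IsFlag Δ ∧ HasDim Δ 5 ∧
      c Δ 1 = 7 ∧ c Δ 2 = 15 ∧ c Δ 3 = 12 ∧ c Δ 4 = 5 ∧ c Δ 5 = 1 ∧
      ¬ ∃ a : ℕ → ℕ → ℝ, Represents 5 (c Δ) a) ∧
    ¬ ∀ d : ℕ, 1 ≤ d → ∀ (n : ℕ) (Δ : Cpx (Fin n)), IsFlag Δ → HasDim Δ d →
      ∃ a : ℕ → ℕ → ℝ, Represents d (c Δ) a := by
  have h : ¬ ∃ a : ℕ → ℕ → ℝ, Represents 5 (c Δ₀) a := fun ⟨a, ha⟩ => no_rep a ha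
  obtain ⟨e1, e2, e3, e4, e5⟩ := c₀
  exact ⟨⟨Δ₀, flag₀, dim₀, e1, e2, e3, e4, e5, h⟩,
    fun H => h (H 5 (by norm_num) 7 Δ₀ flag₀ dim₀)⟩

end Pool.Agent.Results.MP_1678b7_co.NoRealParameters
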